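import Mathlib

/-!
# Impartial games given by finitely many generators, and finite certificates

`k` generators; the options of the generator `i` are the sums `o` in the list `opt i`, a sum
of generators being a multiset (or a list) of generators.  A position is a multiset of
generators.  A certificate is a finite commutative automaton together with the set of states
of the options of every position (the transition algebra).
-/

set_option autoImplicit false

namespace Pool.Agent.MP_f00281_co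

variable {k : ℕ}

/-- `K` is an option of `G`: one generator `i` of `G` is replaced by one of its options. -/
def Mv (opt : Fin k → List (List (Fin k))) (K G : Multiset (Fin k)) : Prop :=
  ∃ (i : Fin k) (R : Multiset (Fin k)) (o : List (Fin k)),
    o ∈ opt i ∧ G = i ::ₘ R ∧ K = (o : Multiset (Fin k)) + R

section basics

variable (opt : Fin k → List (List (Fin k)))

theorem mv_cons (K R : Multiset (Fin k)) (i : Fin k) :
    Mv opt K (i ::ₘ R) ↔ (∃ o ∈ opt i, K = (o : Multiset (Fin k)) + R) ∨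
      (∃ K', Mv opt K' R ∧ K = i ::ₘ K') := by
  constructor
  · rintro ⟨j, S, o, ho, h1, h2⟩
    rcases Multiset.cons_eq_cons.1 h1 with ⟨rfl, rfl⟩ | ⟨hij, cs, rfl, rfl⟩
    · exact Or.inl ⟨o, ho, h2⟩
    · refine Or.inr ⟨(o : Multiset (Fin k)) + cs, ⟨j, cs, o, ho, rfl, rfl⟩, ?_⟩
      rw [h2, Multiset.add_cons]
  · rintro (⟨o, ho, rfl⟩ | ⟨K', ⟨j, S, o, ho, rfl, rfl⟩, rfl⟩)
    · exact ⟨i, R, o, ho, rfl, rfl⟩
    · refine ⟨j, i ::ₘ S, o, ho, Multiset.cons_swap _ _ _, ?_⟩
      rw [Multiset.add_cons]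

theorem mv_zero (K : Multiset (Fin k)) : ¬ Mv opt K 0 := by
  rintro ⟨i, R, o, _, h, _⟩
  exact (Multiset.cons_ne_zero h.symm)

theorem mv_add (G H K : Multiset (Fin k)) :
    Mv opt K (G + H) ↔ (∃ G', Mv opt G' G ∧ K = G' + H) ∨ (∃ H', Mv opt H' H ∧ K = G + H') := by
  constructor
  · rintro ⟨i, R, o, ho, h1, h2⟩
    have hi : i ∈ G + H := by rw [h1]; exact Multiset.mem_cons_self _ _
    rcases Multiset.mem_add.1 hi with hG | hH
    · obtain ⟨G₁, rfl⟩ := Multiset.exists_cons_of_mem hG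
      rw [Multiset.cons_add] at h1
      have h3 : G₁ + H = R := (Multiset.cons_inj_right i).1 h1
      refine Or.inl ⟨(o : Multiset (Fin k)) + G₁, ⟨i, G₁, o, ho, rfl, rfl⟩, ?_⟩
      rw [h2, ← h3, add_assoc]
    · obtain ⟨H₁, rfl⟩ := Multiset.exists_cons_of_mem hH
      rw [Multiset.add_cons] at h1
      have h3 : G + H₁ = R := (Multiset.cons_inj_right i).1 h1
      refine Or.inr ⟨(o : Multiset (Fin k)) + H₁, ⟨i, H₁, o, ho, rfl, rfl⟩, ?_⟩
      rw [h2, ← h3, ← add_assoc, ← add_assoc, add_comm G]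
  · rintro (⟨G', ⟨i, R, o, ho, rfl, rfl⟩, rfl⟩ | ⟨H', ⟨i, R, o, ho, rfl, rfl⟩, rfl⟩)
    · exact ⟨i, R + H, o, ho, Multiset.cons_add _ _ _, add_assoc _ _ _⟩
    · refine ⟨i, G + R, o, ho, Multiset.add_cons _ _ _, ?_⟩
      rw [← add_assoc, ← add_assoc, add_comm G]

theorem mv_finite (G : Multiset (Fin k)) : Set.Finite {K | Mv opt K G} := by
  induction G using Multiset.induction_on with
  | empty =>
    convert Set.finite_empty
    ext K
    simp [mv_zero]
  | cons i R ih =>
    have h : {K | Mv opt K (i ::ₘ R)} =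
        ((fun o : List (Fin k) => (o : Multiset (Fin k)) + R) '' {o | o ∈ opt i}) ∪
          ((fun K' => i ::ₘ K') '' {K' | Mv opt K' R}) := by
      ext K
      rw [Set.mem_setOf_eq, mv_cons]
      constructor
      · rintro (⟨o, ho, rfl⟩ | ⟨K', hK', rfl⟩)
        · exact Or.inl ⟨o, ho, rfl⟩
        · exact Or.inr ⟨K', hK', rfl⟩
      · rintro (⟨o, ho, rfl⟩ | ⟨K', hK', rfl⟩)
        · exact Or.inl ⟨o, ho, rfl⟩
        · exact Or.inr ⟨K', hK', rfl⟩
    rw [h]
    exact ((List.finite_toSet (opt i)).image _).union (ih.image _)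

theorem mv_wf (w : Fin k → ℕ) (hw : ∀ i, ∀ o ∈ opt i, (o.map w).sum < w i) :
    WellFounded (Mv opt) := by
  refine Subrelation.wf (r := InvImage (· < ·) (fun G : Multiset (Fin k) => (G.map w).sum)) ?_
    (InvImage.wf _ wellFounded_lt)
  rintro K G ⟨i, R, o, ho, rfl, rfl⟩
  have := hw i o ho
  simp only [InvImage, Multiset.map_add, Multiset.sum_add, Multiset.map_cons, Multiset.sum_cons,
    Multiset.map_coe, Multiset.sum_coe]
  omega

end basics

/-- A finite certificate: a commutative automaton with states `Fin n`, and the transition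
algebra with elements `Fin m`, for the games with generators `Fin k`. -/
structure Cert (k n m : ℕ) where
  opt : Fin k → List (List (Fin k))
  d : Fin k → Fin n → Fin n
  s0 : Fin n
  next : Fin k → Fin m → Fin m
  t0 : Fin m
  st : Fin m → Fin n
  E : Fin m → List (Fin n)
  w : Fin k → ℕ
  hw : ∀ i, ∀ o ∈ opt i, (o.map w).sum < w i
  hd : ∀ i j s, d i (d j s) = d j (d i s)
  hnext : ∀ i j t, next i (next j t) = next j (next i t)
  hst0 : st t0 = s0
  hE0 : E t0 = []
  hst : ∀ i t, st (next i t) = d i (st t)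
  hE1 : ∀ i t, ∀ e ∈ E t, d i e ∈ E (next i t)
  hE2 : ∀ i t, ∀ o ∈ opt i, o.foldr d (st t) ∈ E (next i t)
  hE3 : ∀ i t, ∀ s ∈ E (next i t),
    s ∈ (E t).map (d i) ∨ s ∈ (opt i).map (fun o => o.foldr d (st t))

namespace Cert

variable {n m : ℕ} (C : Cert k n m)

instance lcd : LeftCommutative C.d := ⟨C.hd⟩
instance lcn : LeftCommutative C.next := ⟨C.hnext⟩

/-- the state of a position -/
def sig (G : Multiset (Fin k)) : Fin n := G.foldr C.d C.s0
/-- the element of the transition algebra of a position -/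
def tau (G : Multiset (Fin k)) : Fin m := G.foldr C.next C.t0

theorem sig_zero : C.sig 0 = C.s0 := rfl

theorem sig_cons (i : Fin k) (G : Multiset (Fin k)) : C.sig (i ::ₘ G) = C.d i (C.sig G) :=
  Multiset.foldr_cons _ _ _ _

theorem tau_cons (i : Fin k) (G : Multiset (Fin k)) : C.tau (i ::ₘ G) = C.next i (C.tau G) :=
  Multiset.foldr_cons _ _ _ _

theorem sig_coe_add (o : List (Fin k)) (R : Multiset (Fin k)) :
    C.sig ((o : Multiset (Fin k)) + R) = o.foldr C.d (C.sig R) := by
  unfold sig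
  rw [Multiset.foldr_add, Multiset.coe_foldr]

theorem st_tau (G : Multiset (Fin k)) : C.st (C.tau G) = C.sig G := by
  induction G using Multiset.induction_on with
  | empty => exact C.hst0
  | cons i R ih => rw [tau_cons, C.hst, ih, sig_cons]

theorem mem_E (G : Multiset (Fin k)) (s : Fin n) :
    s ∈ C.E (C.tau G) ↔ ∃ K, Mv C.opt K G ∧ C.sig K = s := by
  induction G using Multiset.induction_on generalizing s with
  | empty =>
    have h0 : C.tau 0 = C.t0 := rfl
    rw [h0, C.hE0]
    constructor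
    · intro h
      exact absurd h List.not_mem_nil
    · rintro ⟨K, hK, _⟩
      exact absurd hK (mv_zero _ _)
  | cons i R ih =>
    rw [tau_cons]
    constructor
    · intro h
      rcases C.hE3 i _ s h with h1 | h1
      · obtain ⟨e, he, rfl⟩ := List.mem_map.1 h1
        obtain ⟨K, hK, rfl⟩ := (ih e).1 he
        exact ⟨i ::ₘ K, (mv_cons _ _ _ _).2 (Or.inr ⟨K, hK, rfl⟩), sig_cons _ _ _⟩
      · obtain ⟨o, ho, rfl⟩ := List.mem_map.1 h1
        refine ⟨(o : Multiset (Fin k)) + R, (mv_cons _ _ _ _).2 (Or.inl ⟨o, ho, rfl⟩), ?_⟩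
        rw [sig_coe_add, st_tau]
    · rintro ⟨K, hK, rfl⟩
      rcases (mv_cons _ _ _ _).1 hK with ⟨o, ho, rfl⟩ | ⟨K', hK', rfl⟩
      · rw [sig_coe_add, ← st_tau]
        exact C.hE2 i _ o ho
      · rw [sig_cons]
        exact C.hE1 i _ _ ((ih _).2 ⟨K', hK', rfl⟩)

theorem E_nil_iff (G : Multiset (Fin k)) : C.E (C.tau G) = [] ↔ ∀ K, ¬ Mv C.opt K G := by
  constructor
  · intro h K hK
    have := (C.mem_E G (C.sig K)).2 ⟨K, hK, rfl⟩
    rw [h] at this
    exact absurd this List.not_mem_nil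
  · intro h
    rw [List.eq_nil_iff_forall_not_mem]
    intro s hs
    obtain ⟨K, hK, _⟩ := (C.mem_E G s).1 hs
    exact h K hK

/-- relation on states preserved by the automaton, transported to sums -/
theorem rel_add (r : Fin n → Fin n → Prop) (hr : ∀ i s s', r s s' → r (C.d i s) (C.d i s'))
    (G H X : Multiset (Fin k)) (h : r (C.sig G) (C.sig H)) : r (C.sig (G + X)) (C.sig (H + X)) := by
  induction X using Multiset.induction_on with
  | empty => simpa using h
  | cons i R ih =>
    rw [Multiset.add_cons, Multiset.add_cons, sig_cons, sig_cons]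
    exact hr i _ _ ih

theorem sig_add_congr (G H X : Multiset (Fin k)) (h : C.sig G = C.sig H) :
    C.sig (G + X) = C.sig (H + X) :=
  C.rel_add (fun a b => a = b) (fun _ _ _ h => by rw [h]) G H X h

/-- the outcome predicate defined by a set of states satisfies the misere recursion -/
theorem outcome (P : Fin n → Bool)
    (hP : ∀ t, P (C.st t) = false ↔ (C.E t = [] ∨ ∃ e ∈ C.E t, P e = true))
    (G : Multiset (Fin k)) :
    P (C.sig G) = false ↔ ((∀ K, ¬ Mv C.opt K G) ∨ ∃ K, Mv C.opt K G ∧ ¬ P (C.sig K) = false) := by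
  rw [← C.st_tau, hP, C.E_nil_iff]
  refine or_congr Iff.rfl ?_
  constructor
  · rintro ⟨e, he, hPe⟩
    obtain ⟨K, hK, rfl⟩ := (C.mem_E G e).1 he
    exact ⟨K, hK, by rw [hPe]; decide⟩
  · rintro ⟨K, hK, h⟩
    exact ⟨C.sig K, (C.mem_E G _).2 ⟨K, hK, rfl⟩, by simpa using h⟩

/-- the Grundy function defined by the states -/
theorem grundy (g : Fin n → ℕ)
    (hg1 : ∀ t, ∀ e ∈ C.E t, g e ≠ g (C.st t))
    (hg2 : ∀ t, ∀ m < g (C.st t), ∃ e ∈ C.E t, g e = m)
    (G : Multiset (Fin k)) :
    (∀ K, Mv C.opt K G → g (C.sig K) ≠ g (C.sig G)) ∧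
      (∀ m, m < g (C.sig G) → ∃ K, Mv C.opt K G ∧ g (C.sig K) = m) := by
  constructor
  · intro K hK
    rw [← C.st_tau G]
    exact hg1 _ _ ((C.mem_E G _).2 ⟨K, hK, rfl⟩)
  · intro m hm
    rw [← C.st_tau G] at hm
    obtain ⟨e, he, hme⟩ := hg2 _ m hm
    obtain ⟨K, hK, rfl⟩ := (C.mem_E G e).1 he
    exact ⟨K, hK, hme⟩

end Cert

end Pool.Agent.MP_f00281_co
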