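import Pool.Agent.Work.MP_f00281_co.Defs
import Pool.Agent.Work.MP_f00281_co.Frame

/-!
# From finite certificates to closed sets of game trees
-/

set_option autoImplicit false

namespace Pool.Agent.MP_f00281_co

open Game

/-- the tree `G` represents the position `v` (bisimulation) -/
def Rep {k : ℕ} (opt : Fin k → List (List (Fin k))) : Game → Multiset (Fin k) → Prop
  | mk n f => fun v =>
      (∀ i : Fin n, ∃ v', Mv opt v' v ∧ Rep opt (f i) v') ∧
        (∀ v', Mv opt v' v → ∃ i : Fin n, Rep opt (f i) v')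

section rep

variable {k : ℕ} (opt : Fin k → List (List (Fin k)))

theorem rep_mk (n : ℕ) (f : Fin n → Game) (v : Multiset (Fin k)) :
    Rep opt (mk n f) v ↔ (∀ i : Fin n, ∃ v', Mv opt v' v ∧ Rep opt (f i) v') ∧
        (∀ v', Mv opt v' v → ∃ i : Fin n, Rep opt (f i) v') := Iff.rfl

theorem rep_exists (hwf : WellFounded (Mv opt)) (v : Multiset (Fin k)) : ∃ G, Rep opt G v := by
  induction v using hwf.induction with
  | _ v ih =>
    let s := (mv_finite opt v).toFinset
    have hs : ∀ x : s, Mv opt x.1 v := fun x => ((mv_finite opt v).mem_toFinset).1 x.2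
    choose F hF using fun x : s => ih x.1 (hs x)
    refine ⟨mk s.card (fun i => F (s.equivFin.symm i)), ?_, ?_⟩
    · intro i
      exact ⟨_, hs (s.equivFin.symm i), hF _⟩
    · intro v' hv'
      have hx : v' ∈ s := ((mv_finite opt v).mem_toFinset).2 hv'
      refine ⟨s.equivFin ⟨v', hx⟩, ?_⟩
      have h := hF (s.equivFin.symm (s.equivFin ⟨v', hx⟩))
      rw [Equiv.symm_apply_apply] at h
      show Rep opt (F (s.equivFin.symm (s.equivFin ⟨v', hx⟩))) v'
      rw [Equiv.symm_apply_apply]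
      exact h

theorem rep_zero : Rep opt zero 0 := by
  refine ⟨fun i => i.elim0, fun v' hv' => absurd hv' (mv_zero opt v')⟩

theorem rep_add (G H : Game) (v w : Multiset (Fin k)) (hG : Rep opt G v) (hH : Rep opt H w) :
    Rep opt (Game.add G H) (v + w) := by
  induction G generalizing v H w with
  | mk n f ihG =>
    induction H generalizing w with
    | mk m g ihH =>
      rw [add_mk]
      constructor
      · intro i
        refine Fin.addCases (fun a => ?_) (fun b => ?_) i
        · obtain ⟨v', hv', hr⟩ := hG.1 a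
          refine ⟨v' + w, (mv_add _ _ _ _).2 (Or.inl ⟨v', hv', rfl⟩), ?_⟩
          beta_reduce
          rw [Fin.addCases_left]
          exact ihG a (mk m g) v' w hr hH
        · obtain ⟨w', hw', hr⟩ := hH.1 b
          refine ⟨v + w', (mv_add _ _ _ _).2 (Or.inr ⟨w', hw', rfl⟩), ?_⟩
          beta_reduce
          rw [Fin.addCases_right]
          exact ihH b w' hr
      · intro x hx
        rcases (mv_add _ _ _ _).1 hx with ⟨v', hv', rfl⟩ | ⟨w', hw', rfl⟩
        · obtain ⟨a, ha⟩ := hG.2 v' hv'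
          refine ⟨Fin.castAdd m a, ?_⟩
          beta_reduce
          rw [Fin.addCases_left]
          exact ihG a (mk m g) v' w ha hH
        · obtain ⟨b, hb⟩ := hH.2 w' hw'
          refine ⟨Fin.natAdd n b, ?_⟩
          beta_reduce
          rw [Fin.addCases_right]
          exact ihH b w' hb

theorem rep_mul (n : ℕ) (G : Game) (v : Multiset (Fin k)) (hG : Rep opt G v) :
    Rep opt (Game.mul n G) (n • v) := by
  induction n with
  | zero =>
    rw [zero_nsmul]
    exact rep_zero opt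
  | succ n ih =>
    have h : (n + 1) • v = v + n • v := by rw [succ_nsmul, add_comm]
    rw [h]
    exact rep_add opt _ _ _ _ hG ih

/-- the closed set of all trees representing a position -/
def trees : Set Game := {G | ∃ v, Rep opt G v}

theorem trees_closed : IsClosedSet (trees opt) where
  zero := ⟨0, rep_zero opt⟩
  opt := by
    rintro G ⟨v, hG⟩ K hK
    cases G with
    | mk n f =>
      obtain ⟨i, rfl⟩ := hK
      obtain ⟨v', _, h⟩ := hG.1 i
      exact ⟨v', h⟩
  add := by
    rintro G ⟨v, hG⟩ H ⟨w, hH⟩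
    exact ⟨v + w, rep_add opt G H v w hG hH⟩

end rep

namespace Cert

variable {k n m : ℕ} (C : Cert k n m)

theorem isP_iff (P : Fin n → Bool)
    (hP : ∀ t, P (C.st t) = false ↔ (C.E t = [] ∨ ∃ e ∈ C.E t, P e = true))
    (G : Game) (v : Multiset (Fin k)) (hG : Rep C.opt G v) :
    IsP G ↔ P (C.sig v) = true := by
  induction G generalizing v with
  | mk a f ih =>
    have ho := C.outcome P hP v
    have ho' : P (C.sig v) = true ↔ ¬ ((∀ K, ¬ Mv C.opt K v) ∨
        ∃ K, Mv C.opt K v ∧ ¬ P (C.sig K) = false) := by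
      rw [← ho, Bool.not_eq_false]
    rw [ho']
    constructor
    · rintro ⟨h1, h2⟩ (h3 | ⟨K, hK, hPK⟩)
      · obtain ⟨v', hv', _⟩ := hG.1 ⟨0, Nat.pos_of_ne_zero h1⟩
        exact h3 v' hv'
      · obtain ⟨i, hi⟩ := hG.2 K hK
        exact h2 i ((ih i K hi).2 (by simpa using hPK))
    · intro h
      rw [not_or] at h
      obtain ⟨h1, h2⟩ := h
      rw [not_forall] at h1
      obtain ⟨K, hK⟩ := h1
      rw [not_not] at hK
      obtain ⟨i, _⟩ := hG.2 K hK
      refine ⟨fun ha => ?_, fun j hj => ?_⟩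
      · subst ha
        exact i.elim0
      · obtain ⟨v', hv', hr⟩ := hG.1 j
        exact h2 ⟨v', hv', by rw [(ih j v' hr).1 hj]; decide⟩

theorem eqv_of_sig (P : Fin n → Bool)
    (hP : ∀ t, P (C.st t) = false ↔ (C.E t = [] ∨ ∃ e ∈ C.E t, P e = true))
    (G H : Game) (v w : Multiset (Fin k)) (hG : Rep C.opt G v) (hH : Rep C.opt H w)
    (h : C.sig v = C.sig w) : Eqv (trees C.opt) G H := by
  rintro X ⟨x, hX⟩
  rw [C.isP_iff P hP _ _ (rep_add _ _ _ _ _ hG hX), C.isP_iff P hP _ _ (rep_add _ _ _ _ _ hH hX),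
    C.sig_add_congr v w x h]

theorem not_eqv (P : Fin n → Bool)
    (hP : ∀ t, P (C.st t) = false ↔ (C.E t = [] ∨ ∃ e ∈ C.E t, P e = true))
    (G H : Game) (v w : Multiset (Fin k)) (hG : Rep C.opt G v) (hH : Rep C.opt H w)
    (x : List (Fin k)) (h : P (x.foldr C.d (C.sig v)) ≠ P (x.foldr C.d (C.sig w))) :
    ¬ Eqv (trees C.opt) G H := by
  intro he
  obtain ⟨X, hX⟩ := rep_exists C.opt (mv_wf C.opt C.w C.hw) (x : Multiset (Fin k))
  have h1 := he X ⟨_, hX⟩
  rw [C.isP_iff P hP _ _ (rep_add _ _ _ _ _ hG hX), C.isP_iff P hP _ _ (rep_add _ _ _ _ _ hH hX),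
    add_comm v, add_comm w, C.sig_coe_add, C.sig_coe_add] at h1
  exact h (Bool.eq_iff_iff.2 h1)

theorem sig_nsmul (v : List (Fin k)) (j : ℕ) :
    C.sig (j • (v : Multiset (Fin k))) = (fun s => v.foldr C.d s)^[j] C.s0 := by
  induction j with
  | zero => rw [zero_nsmul]; rfl
  | succ j ih =>
    have h : (j + 1) • (v : Multiset (Fin k)) = (v : Multiset (Fin k)) + j • (v : Multiset (Fin k)) := by
      rw [succ_nsmul, add_comm]
    rw [h, C.sig_coe_add, ih, Function.iterate_succ_apply']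

/-- a certificate for the period `p` (and index 1) of the class of `v` -/
theorem period_one (P : Fin n → Bool)
    (hP : ∀ t, P (C.st t) = false ↔ (C.E t = [] ∨ ∃ e ∈ C.E t, P e = true))
    (v : List (Fin k)) (p : ℕ) (hp : 1 ≤ p)
    (h1 : (fun s => v.foldr C.d s)^[1 + p] C.s0 = (fun s => v.foldr C.d s)^[1] C.s0)
    (test : ℕ → List (Fin k))
    (h2 : ∀ q < p, 1 ≤ q → P ((test q).foldr C.d ((fun s => v.foldr C.d s)^[1 + q] C.s0)) ≠
      P ((test q).foldr C.d ((fun s => v.foldr C.d s)^[1] C.s0))) :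
    ∃ A : Set Game, IsClosedSet A ∧ ∃ G ∈ A, HasPeriod A G p := by
  obtain ⟨G, hG⟩ := rep_exists C.opt (mv_wf C.opt C.w C.hw) (v : Multiset (Fin k))
  have heq : Eqv (trees C.opt) (Game.mul (1 + p) G) (Game.mul 1 G) := by
    refine C.eqv_of_sig P hP _ _ _ _ (rep_mul _ (1 + p) _ _ hG) (rep_mul _ 1 _ _ hG) ?_
    rw [sig_nsmul, sig_nsmul, h1]
  refine ⟨trees C.opt, trees_closed C.opt, G, ⟨_, hG⟩, 1, ⟨⟨le_refl 1, p, hp, heq⟩, ?_⟩,
    ⟨hp, heq⟩, ?_⟩
  · rintro m' ⟨hm', _⟩
    exact hm'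
  · rintro q ⟨hq1, hq2⟩
    by_contra hlt
    rw [not_le] at hlt
    refine C.not_eqv P hP _ _ _ _ (rep_mul _ (1 + q) _ _ hG) (rep_mul _ 1 _ _ hG) (test q) ?_ hq2
    rw [sig_nsmul, sig_nsmul]
    exact h2 q hlt hq1

end Cert

end Pool.Agent.MP_f00281_co
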