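import Mathlib

/-!
# Finite impartial games, misere play, misere quotients and periods of their elements
-/

set_option autoImplicit false

namespace Pool.Agent.MP_f00281_co

/-- Finite impartial games, as finitely branching well-founded trees: `mk n f` is the game
whose options are `f 0, ..., f (n-1)`. -/
inductive Game : Type
  | mk (n : ℕ) (f : Fin n → Game) : Game

namespace Game

/-- `IsOption K G`: `K` is an option of `G`. -/
def IsOption (K : Game) : Game → Prop
  | mk n f => ∃ i : Fin n, K = f i

/-- the empty game -/
def zero : Game := mk 0 Fin.elim0

/-- auxiliary: the sum of a game with `n` options, to which `F` says how to add games, and of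
a game `H` -/
def addRight (n : ℕ) (F : Fin n → Game → Game) : Game → Game
  | mk m g => mk (n + m) (Fin.addCases (fun i => F i (mk m g)) (fun j => addRight n F (g j)))

/-- the disjunctive sum: a move is a move in exactly one component, that is, the options of
`G + H` are `G' + H` and `G + H'` (see `add_mk`) -/
def add : Game → Game → Game
  | mk n f => addRight n (fun i => add (f i))

theorem add_mk (n m : ℕ) (f : Fin n → Game) (g : Fin m → Game) :
    add (mk n f) (mk m g) =
      mk (n + m) (Fin.addCases (fun i => add (f i) (mk m g)) (fun j => add (mk n f) (g j))) := rfl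

/-- `G` is a P-position in misere play (the previous player wins): the player to move has at
least one move, and every option is an N-position (is not a P-position). -/
def IsP : Game → Prop
  | mk n f => n ≠ 0 ∧ ∀ i : Fin n, ¬ IsP (f i)

/-- the multiple `n G = G + G + ... + G` -/
def mul : ℕ → Game → Game
  | 0, _ => zero
  | n + 1, G => add G (mul n G)

end Game

open Game

/-- a set of games that contains the empty game and is closed under sums and options -/
structure IsClosedSet (A : Set Game) : Prop where
  zero : zero ∈ A
  opt : ∀ G ∈ A, ∀ K, IsOption K G → K ∈ A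
  add : ∀ G ∈ A, ∀ H ∈ A, Game.add G H ∈ A

/-- equivalence modulo `A`: `H + X` and `K + X` have the same misere outcome for every `X`
in `A`; the misere quotient is `A` modulo this equivalence -/
def Eqv (A : Set Game) (H K : Game) : Prop :=
  ∀ X ∈ A, (IsP (Game.add H X) ↔ IsP (Game.add K X))

/-- the class `x` of `G` in the misere quotient of `A` has period `p`: `m` is the least
`m >= 1` with `(m + q) x = m x` for some `q >= 1`, and `p` is the least `q >= 1` with
`(m + q) x = m x`. -/
def HasPeriod (A : Set Game) (G : Game) (p : ℕ) : Prop :=
  ∃ m : ℕ, IsLeast {m : ℕ | 1 ≤ m ∧ ∃ q : ℕ, 1 ≤ q ∧ Eqv A (Game.mul (m + q) G) (Game.mul m G)} m ∧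
    IsLeast {q : ℕ | 1 ≤ q ∧ Eqv A (Game.mul (m + q) G) (Game.mul m G)} p

end Pool.Agent.MP_f00281_co
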