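import Pool.Agent.Work.MP_f00281_co.Bridge

/-!
# Certificates by computation with natural numbers
-/

set_option autoImplicit false

namespace Pool.Agent.MP_f00281_co

/-- `f 0, ..., f (n-1)` are all true -/
def allB : ℕ → (ℕ → Bool) → Bool
  | 0, _ => true
  | n + 1, f => and (f n) (allB n f)

theorem allB_iff (n : ℕ) (f : ℕ → Bool) : allB n f = true ↔ ∀ i < n, f i = true := by
  induction n with
  | zero => simp [allB]
  | succ n ih =>
    rw [allB, Bool.and_eq_true, ih]
    constructor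
    · rintro ⟨h1, h2⟩ i hi
      rcases Nat.lt_succ_iff_lt_or_eq.1 hi with h | rfl
      · exact h2 i h
      · exact h1
    · intro h
      exact ⟨h n (Nat.lt_succ_self n), fun i hi => h i (Nat.lt_succ_of_lt hi)⟩

/-- the digit number `i` of `x` in base `2 ^ b` -/
def digit (b x i : ℕ) : ℕ := (x >>> (b * i)) % (2 ^ b)

/-- the digits of `x`, in base `2 ^ b`, up to `f` of them, as long as they are not `0`, each
decreased by one -/
def digs (b : ℕ) : ℕ → ℕ → List ℕ
  | 0, _ => []
  | f + 1, x => Bool.rec ((x % 2 ^ b - 1) :: digs b f (x >>> b)) [] (Nat.beq (x % 2 ^ b) 0)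

/-- the set of elements of a list as a natural number -/
def mask : List ℕ → ℕ
  | [] => 0
  | a :: l => (1 <<< a) ||| mask l

theorem testBit_mask (l : List ℕ) (s : ℕ) : (mask l).testBit s = true ↔ s ∈ l := by
  induction l with
  | nil => simp [mask]
  | cons a l ih =>
    rw [mask, Nat.testBit_or, Bool.or_eq_true, ih, List.mem_cons, Nat.one_shiftLeft,
      Nat.testBit_two_pow, decide_eq_true_iff]
    exact or_congr_left eq_comm

theorem mem_iff_of_mask (l l' : List ℕ) (h : mask l = mask l') (s : ℕ) : s ∈ l ↔ s ∈ l' := by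
  rw [← testBit_mask, ← testBit_mask, h]

section mk

variable (k n m : ℕ) [NeZero k] [NeZero n] [NeZero m]

theorem foldr_val (D : ℕ → ℕ → ℕ) (hD : ∀ i < k, ∀ s < n, D i s < n) (o : List ℕ)
    (ho : ∀ j ∈ o, j < k) (s : Fin n) :
    ((o.map (Fin.ofNat k)).foldr (fun (i : Fin k) (s : Fin n) => Fin.ofNat n (D i.val s.val)) s).val
      = o.foldr D s.val ∧ o.foldr D s.val < n := by
  induction o with
  | nil => exact ⟨rfl, s.2⟩
  | cons a o ih =>
    obtain ⟨h1, h2⟩ := ih (fun j hj => ho j (List.mem_cons_of_mem _ hj))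
    have ha : a < k := ho a List.mem_cons_self
    rw [List.map_cons, List.foldr_cons, List.foldr_cons, h1, Fin.val_ofNat, Fin.val_ofNat,
      Nat.mod_eq_of_lt ha]
    exact ⟨Nat.mod_eq_of_lt (hD a ha _ h2), hD a ha _ h2⟩

/-- a certificate from functions on natural numbers -/
def mkCert (D X : ℕ → ℕ → ℕ) (S : ℕ → ℕ) (E : ℕ → List ℕ) (opt : ℕ → List (List ℕ)) (w : ℕ → ℕ)
    (hD : ∀ i < k, ∀ s < n, D i s < n) (hX : ∀ i < k, ∀ t < m, X i t < m)
    (hS : ∀ t < m, S t < n) (hE : ∀ t < m, ∀ e ∈ E t, e < n)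
    (hopt : ∀ i < k, ∀ o ∈ opt i, ∀ j ∈ o, j < k)
    (hw : ∀ i < k, ∀ o ∈ opt i, (o.map w).sum < w i)
    (hd : ∀ i < k, ∀ j < k, ∀ s < n, D i (D j s) = D j (D i s))
    (hx : ∀ i < k, ∀ j < k, ∀ t < m, X i (X j t) = X j (X i t))
    (hst0 : S 0 = 0) (hE0 : E 0 = [])
    (hst : ∀ i < k, ∀ t < m, S (X i t) = D i (S t))
    (hEE : ∀ i < k, ∀ t < m, ∀ s, s ∈ E (X i t) ↔
      s ∈ (E t).map (D i) ++ (opt i).map (fun o => o.foldr D (S t))) : Cert k n m where
  opt i := (opt i.val).map (fun o => o.map (Fin.ofNat k))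
  d i s := Fin.ofNat n (D i.val s.val)
  s0 := Fin.ofNat n 0
  next i t := Fin.ofNat m (X i.val t.val)
  t0 := Fin.ofNat m 0
  st t := Fin.ofNat n (S t.val)
  E t := (E t.val).map (Fin.ofNat n)
  w i := w i.val
  hw := by
    intro i o ho
    obtain ⟨o', ho', rfl⟩ := List.mem_map.1 ho
    have h := hw i.val i.2 o' ho'
    have h2 : (List.map (fun i : Fin k => w i.val) (List.map (Fin.ofNat k) o')) = o'.map w := by
      rw [List.map_map]
      apply List.map_congr_left
      intro j hj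
      have := hopt i.val i.2 o' ho' j hj
      simp only [Function.comp, Fin.val_ofNat, Nat.mod_eq_of_lt this]
    rw [h2]
    exact h
  hd := by
    intro i j s
    ext
    simp only [Fin.val_ofNat]
    rw [Nat.mod_eq_of_lt (hD j.val j.2 s.val s.2), Nat.mod_eq_of_lt (hD i.val i.2 s.val s.2),
      hd i.val i.2 j.val j.2 s.val s.2]
  hnext := by
    intro i j s
    ext
    simp only [Fin.val_ofNat]
    rw [Nat.mod_eq_of_lt (hX j.val j.2 s.val s.2), Nat.mod_eq_of_lt (hX i.val i.2 s.val s.2),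
      hx i.val i.2 j.val j.2 s.val s.2]
  hst0 := by
    ext
    simp only [Fin.val_ofNat, Nat.zero_mod, hst0]
  hE0 := by
    simp only [Fin.val_ofNat, Nat.zero_mod, hE0, List.map_nil]
  hst := by
    intro i t
    ext
    simp only [Fin.val_ofNat]
    rw [Nat.mod_eq_of_lt (hX i.val i.2 t.val t.2), Nat.mod_eq_of_lt (hS t.val t.2),
      hst i.val i.2 t.val t.2]
  hE1 := by
    intro i t e he
    obtain ⟨e', he', rfl⟩ := List.mem_map.1 he
    have hlt := hE t.val t.2 e' he'
    simp only [Fin.val_ofNat]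
    rw [Nat.mod_eq_of_lt (hX i.val i.2 t.val t.2), Nat.mod_eq_of_lt hlt]
    refine List.mem_map.2 ⟨D i.val e', ?_, rfl⟩
    rw [hEE i.val i.2 t.val t.2]
    exact List.mem_append_left _ (List.mem_map.2 ⟨e', he', rfl⟩)
  hE2 := by
    intro i t o ho
    obtain ⟨o', ho', rfl⟩ := List.mem_map.1 ho
    obtain ⟨h1, h2⟩ := foldr_val k n D hD o' (hopt i.val i.2 o' ho') (Fin.ofNat n (S t.val))
    have h3 : (Fin.ofNat n (S t.val)).val = S t.val := by
      rw [Fin.val_ofNat, Nat.mod_eq_of_lt (hS t.val t.2)]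
    rw [h3] at h1 h2
    refine List.mem_map.2 ⟨o'.foldr D (S t.val), ?_, ?_⟩
    · rw [Fin.val_ofNat, Nat.mod_eq_of_lt (hX i.val i.2 t.val t.2), hEE i.val i.2 t.val t.2]
      exact List.mem_append_right _ (List.mem_map.2 ⟨o', ho', rfl⟩)
    · ext
      rw [h1, Fin.val_ofNat, Nat.mod_eq_of_lt h2]
  hE3 := by
    intro i t s hs
    obtain ⟨s', hs', rfl⟩ := List.mem_map.1 hs
    rw [Fin.val_ofNat, Nat.mod_eq_of_lt (hX i.val i.2 t.val t.2), hEE i.val i.2 t.val t.2] at hs'
    rcases List.mem_append.1 hs' with h | h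
    · obtain ⟨e, he, rfl⟩ := List.mem_map.1 h
      refine Or.inl (List.mem_map.2 ⟨Fin.ofNat n e, List.mem_map.2 ⟨e, he, rfl⟩, ?_⟩)
      ext
      simp only [Fin.val_ofNat]
      rw [Nat.mod_eq_of_lt (hE t.val t.2 e he)]
    · obtain ⟨o', ho', rfl⟩ := List.mem_map.1 h
      refine Or.inr (List.mem_map.2 ⟨o'.map (Fin.ofNat k), List.mem_map.2 ⟨o', ho', rfl⟩, ?_⟩)
      obtain ⟨h1, h2⟩ := foldr_val k n D hD o' (hopt i.val i.2 o' ho') (Fin.ofNat n (S t.val))
      have h3 : (Fin.ofNat n (S t.val)).val = S t.val := by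
        rw [Fin.val_ofNat, Nat.mod_eq_of_lt (hS t.val t.2)]
      rw [h3] at h1 h2
      ext
      rw [h1, Fin.val_ofNat, Nat.mod_eq_of_lt h2]

end mk

end Pool.Agent.MP_f00281_co

namespace Pool.Agent.MP_f00281_co

section boolean

variable {k n m : ℕ} [NeZero k] [NeZero n] [NeZero m]

/-- a certificate from boolean checks -/
def boolCert (D X : ℕ → ℕ → ℕ) (S : ℕ → ℕ) (E : ℕ → List ℕ) (opt : ℕ → List (List ℕ)) (w : ℕ → ℕ)
    (hD : allB k (fun i => allB n (fun s => Nat.blt (D i s) n)) = true)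
    (hX : allB k (fun i => allB m (fun t => Nat.blt (X i t) m)) = true)
    (hS : allB m (fun t => Nat.blt (S t) n) = true)
    (hE : allB m (fun t => (E t).all (fun e => Nat.blt e n)) = true)
    (hopt : allB k (fun i => (opt i).all (fun o => o.all (fun j => Nat.blt j k))) = true)
    (hw : allB k (fun i => (opt i).all (fun o => Nat.blt (o.map w).sum (w i))) = true)
    (hd : allB k (fun i => allB i (fun j => allB n (fun s => Nat.beq (D i (D j s)) (D j (D i s)))))
      = true)
    (hx : allB k (fun i => allB i (fun j => allB m (fun t => Nat.beq (X i (X j t)) (X j (X i t)))))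
      = true)
    (hst0 : S 0 = 0) (hE0 : E 0 = [])
    (hst : allB k (fun i => allB m (fun t => Nat.beq (S (X i t)) (D i (S t)))) = true)
    (hEE : allB k (fun i => allB m (fun t => Nat.beq (mask (E (X i t)))
      (mask ((E t).map (D i) ++ (opt i).map (fun o => o.foldr D (S t)))))) = true) : Cert k n m :=
  mkCert k n m D X S E opt w
    (fun i hi s hs => by
      simpa using (allB_iff _ _).1 ((allB_iff _ _).1 hD i hi) s hs)
    (fun i hi s hs => by
      simpa using (allB_iff _ _).1 ((allB_iff _ _).1 hX i hi) s hs)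
    (fun i hi => by simpa using (allB_iff _ _).1 hS i hi)
    (fun t ht e he => by
      simpa using List.all_eq_true.1 ((allB_iff _ _).1 hE t ht) e he)
    (fun i hi o ho j hj => by
      simpa using List.all_eq_true.1 (List.all_eq_true.1 ((allB_iff _ _).1 hopt i hi) o ho) j hj)
    (fun i hi o ho => by
      simpa using List.all_eq_true.1 ((allB_iff _ _).1 hw i hi) o ho)
    (fun i hi j hj s hs => by
      rcases Nat.lt_trichotomy i j with h | rfl | h
      · exact (Nat.eq_of_beq_eq_true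
          ((allB_iff _ _).1 ((allB_iff _ _).1 ((allB_iff _ _).1 hd j hj) i h) s hs)).symm
      · rfl
      · exact Nat.eq_of_beq_eq_true
          ((allB_iff _ _).1 ((allB_iff _ _).1 ((allB_iff _ _).1 hd i hi) j h) s hs))
    (fun i hi j hj s hs => by
      rcases Nat.lt_trichotomy i j with h | rfl | h
      · exact (Nat.eq_of_beq_eq_true
          ((allB_iff _ _).1 ((allB_iff _ _).1 ((allB_iff _ _).1 hx j hj) i h) s hs)).symm
      · rfl
      · exact Nat.eq_of_beq_eq_true
          ((allB_iff _ _).1 ((allB_iff _ _).1 ((allB_iff _ _).1 hx i hi) j h) s hs))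
    hst0 hE0
    (fun i hi t ht => Nat.eq_of_beq_eq_true ((allB_iff _ _).1 ((allB_iff _ _).1 hst i hi) t ht))
    (fun i hi t ht s => mem_iff_of_mask _ _
      (Nat.eq_of_beq_eq_true ((allB_iff _ _).1 ((allB_iff _ _).1 hEE i hi) t ht)) s)

theorem outcome_bool (S : ℕ → ℕ) (E : ℕ → List ℕ) (P : ℕ → Bool)
    (hS : allB m (fun t => Nat.blt (S t) n) = true)
    (hE : allB m (fun t => (E t).all (fun e => Nat.blt e n)) = true)
    (hP : allB m (fun t => P (S t) != ((E t).isEmpty || (E t).any P)) = true) (t : Fin m) :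
    P (Fin.ofNat n (S t.val)).val = false ↔
      ((E t.val).map (Fin.ofNat n) = [] ∨
        ∃ e ∈ (E t.val).map (Fin.ofNat n), P e.val = true) := by
  have h1 : S t.val < n := by simpa using (allB_iff _ _).1 hS t.val t.2
  have h2 : ∀ e ∈ E t.val, e < n := fun e he => by
    simpa using List.all_eq_true.1 ((allB_iff _ _).1 hE t.val t.2) e he
  have h3 := (allB_iff _ _).1 hP t.val t.2
  rw [Fin.val_ofNat, Nat.mod_eq_of_lt h1, List.map_eq_nil_iff]
  have h4 : (∃ e ∈ (E t.val).map (Fin.ofNat n), P e.val = true) ↔ (E t.val).any P = true := by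
    rw [List.any_eq_true]
    constructor
    · rintro ⟨e, he, hPe⟩
      obtain ⟨e', he', rfl⟩ := List.mem_map.1 he
      rw [Fin.val_ofNat, Nat.mod_eq_of_lt (h2 e' he')] at hPe
      exact ⟨e', he', hPe⟩
    · rintro ⟨e, he, hPe⟩
      refine ⟨Fin.ofNat n e, List.mem_map.2 ⟨e, he, rfl⟩, ?_⟩
      rw [Fin.val_ofNat, Nat.mod_eq_of_lt (h2 e he)]
      exact hPe
  rw [h4]
  have h5 : (E t.val).isEmpty = true ↔ E t.val = [] := List.isEmpty_iff
  rw [← h5, ← Bool.or_eq_true]
  revert h3
  cases P (S t.val) <;> cases ((E t.val).isEmpty || (E t.val).any P) <;> simp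

end boolean

end Pool.Agent.MP_f00281_co
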